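import Pool.Agent.Run7.h282.PS.Fin

/-!
# MP_5387a8_co, Q1 (partial): `PSCA(n, k, lam)` exists for all large `lam`

`IsPSCA n k lam P` (in `Pool/Agent/Run7/h282/PS/Def.lean`): `P` is a multiset of permutations of `n` letters,
written as lists without repetitions, such that every list of `k` different letters is a subsequence of exactly
`lam` members of `P`.

Proof. In the free associative ring over the integers let `s_T` be the sum of all orderings of the set `T`. By
induction on `k` and on the set `S` of letters there is an integer combination `W_S` of orderings of `S` whose
restriction to every `k`-subset `T` is `s_T`: for a new letter `a` put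
`W_(S,a) = W_S a + sum of C(k,m+1) W' [..[[a,b_1],b_2],..,b_m]` over all sequences of different letters
`b_1,..,b_m` of `S`, `1 <= m < k`, where `W'` is such a combination for `k-1-m` and the other letters of `S`. An
iterated commutator vanishes when one of its letters is removed. Then add a large multiple of the sum of all
permutations.
-/

set_option autoImplicit false

namespace Pool.Agent.Results.MP_5387a8_co.AllLarge

/-- For all `k ≤ n` there is `L` such that a `PSCA(n, k, lam)` exists for every `lam ≥ L`. -/
theorem result : ∀ n k : ℕ, k ≤ n → ∃ L : ℕ, ∀ lam : ℕ, L ≤ lam →
    ∃ P : Multiset (List (Fin n)), Run7.h282.PS.IsPSCA n k lam P :=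
  fun n k hk => Run7.h282.PS.exists_psca n k hk

end Pool.Agent.Results.MP_5387a8_co.AllLarge
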